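import Mathlib

/-!
# MP_bb6540_pr : cutoff for random Cayley graphs of nilpotent groups

We refute the statement that for every sequence of finite nilpotent groups `G` with
`|G| -> oo` and every `k` with `k >> log |G^ab|`, `1 << log k << log |G|`, the random walk on the
directed random Cayley graph exhibits cutoff whp at `max (t_0 (k, |G^ab|), log_k |G|)`.

Counterexample: dihedral groups of order `2 ^ (2 ^ k + 1)` with `k` generators.  The abelianization
has at most four elements, while words of length at most `M` in `k` generators reach at most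
`2 * (2 * M + 1) ^ k` elements, since the group is (cyclic) by (order two).
-/

open Filter Topology

namespace Pool.Agent.Results.MP_bb6540_pr.DihedralCounterexample

/-- The law of the discrete-time walk on the directed Cayley multigraph of `Z = (Z_1, ..., Z_k)`
after `j` steps, started at the identity: each step moves `g` to `g * Z_i` with `i` uniform. -/
noncomputable def stepLaw {G : Type} [Group G] {k : ℕ} (Z : Fin k → G) : ℕ → G → ℝ
  | 0 => fun g => by classical exact if g = 1 then 1 else 0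
  | j + 1 => fun g => (∑ i : Fin k, stepLaw Z j (g * (Z i)⁻¹)) / k

/-- The law at time `t` of the continuous-time walk: the number of steps taken up to time `t` is
Poisson with mean `t` (the jumps occur at the times of a rate-1 Poisson process). -/
noncomputable def walkLaw {G : Type} [Group G] {k : ℕ} (Z : Fin k → G) (t : ℝ) (g : G) : ℝ :=
  ∑' j : ℕ, Real.exp (-t) * t ^ j / (j.factorial : ℝ) * stepLaw Z j g

/-- Total variation distance between the law of the walk at time `t` and the uniform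
distribution. -/
noncomputable def tvDist {G : Type} [Group G] [Fintype G] {k : ℕ} (Z : Fin k → G) (t : ℝ) : ℝ :=
  (1 / 2) * ∑ g : G, |walkLaw Z t g - 1 / (Fintype.card G : ℝ)|

/-- Shannon entropy (natural logarithm) of the Poisson distribution with mean `l`. -/
noncomputable def poissonEntropy (l : ℝ) : ℝ :=
  ∑' j : ℕ, Real.negMulLog (Real.exp (-l) * l ^ j / (j.factorial : ℝ))

/-- `t` is the entropic time `t_0(k, N)`: the entropy of the Poisson law with mean `t / k`
equals `(log N) / k`. -/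
def IsEntropicTime (k N : ℕ) (t : ℝ) : Prop :=
  0 ≤ t ∧ poissonEntropy (t / k) = Real.log N / k

/-- Probability of the event `E` when `Z_1, ..., Z_k` are i.i.d. uniform on the finite
group `G`. -/
noncomputable def probZ {G : Type} [Fintype G] {k : ℕ} (E : (Fin k → G) → Prop) : ℝ :=
  (Nat.card {Z : Fin k → G // E Z} : ℝ) / (Nat.card (Fin k → G) : ℝ)

/-- The walk exhibits cutoff whp at time `t`: for every fixed `ε`, `d_Z((1+ε) t) → 0` and
`d_Z((1-ε) t) → 1` in probability over `Z`. -/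
def CutoffWhp (G : ℕ → Type) [∀ m, Group (G m)] [∀ m, Fintype (G m)] (k : ℕ → ℕ)
    (t : ℕ → ℝ) : Prop :=
  ∀ ε : ℝ, 0 < ε → ε < 1 → ∀ δ : ℝ, 0 < δ →
    Tendsto (fun m => probZ fun Z : Fin (k m) → G m => δ < tvDist Z ((1 + ε) * t m))
      atTop (𝓝 0) ∧
    Tendsto (fun m => probZ fun Z : Fin (k m) → G m => tvDist Z ((1 - ε) * t m) < 1 - δ)
      atTop (𝓝 0)

/-! ### step law basics -/

lemma stepLaw_nonneg {G : Type} [Group G] {k : ℕ} (Z : Fin k → G) (j : ℕ) (g : G) :
    0 ≤ stepLaw Z j g := by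
  induction j generalizing g with
  | zero =>
    simp only [stepLaw]
    split_ifs <;> norm_num
  | succ j ih =>
    simp only [stepLaw]
    exact div_nonneg (Finset.sum_nonneg fun i _ => ih _) (Nat.cast_nonneg _)

lemma stepLaw_sum {G : Type} [Group G] [Fintype G] {k : ℕ} (hk : 0 < k) (Z : Fin k → G) (j : ℕ) :
    ∑ g : G, stepLaw Z j g = 1 := by
  induction j with
  | zero =>
    classical
    simp only [stepLaw]
    rw [Finset.sum_ite_eq' Finset.univ (1 : G) (fun _ => (1 : ℝ))]
    simp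
  | succ j ih =>
    simp only [stepLaw]
    rw [← Finset.sum_div, Finset.sum_comm]
    have : ∀ i : Fin k, ∑ g : G, stepLaw Z j (g * (Z i)⁻¹) = 1 := by
      intro i
      rw [← ih]
      exact Fintype.sum_equiv (Equiv.mulRight (Z i)⁻¹) _ _ (fun g => rfl)
    simp only [this]
    have hk' : (k : ℝ) ≠ 0 := by exact_mod_cast hk.ne'
    simp [hk']

lemma poisson_summable (t : ℝ) :
    Summable fun j : ℕ => Real.exp (-t) * t ^ j / (j.factorial : ℝ) := by
  have := (Real.summable_pow_div_factorial t).mul_left (Real.exp (-t))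
  refine this.congr fun j => ?_
  ring

lemma poisson_tsum (t : ℝ) :
    ∑' j : ℕ, Real.exp (-t) * t ^ j / (j.factorial : ℝ) = 1 := by
  have h : ∀ j : ℕ, Real.exp (-t) * t ^ j / (j.factorial : ℝ) =
      Real.exp (-t) * (t ^ j / (j.factorial : ℝ)) := fun j => by ring
  simp only [h]
  rw [tsum_mul_left]
  have := NormedSpace.exp_eq_tsum_div (𝔸 := ℝ)
  rw [← congrFun this t, ← Real.exp_eq_exp_ℝ, ← Real.exp_add]
  simp

lemma stepLaw_le_one {G : Type} [Group G] [Fintype G] {k : ℕ} (hk : 0 < k) (Z : Fin k → G)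
    (j : ℕ) (g : G) : stepLaw Z j g ≤ 1 := by
  rw [← stepLaw_sum hk Z j]
  exact Finset.single_le_sum (f := fun g => stepLaw Z j g) (fun g _ => stepLaw_nonneg Z j g)
    (Finset.mem_univ g)

lemma walk_summable {G : Type} [Group G] [Fintype G] {k : ℕ} (hk : 0 < k) (Z : Fin k → G)
    {t : ℝ} (ht : 0 ≤ t) (g : G) :
    Summable fun j : ℕ => Real.exp (-t) * t ^ j / (j.factorial : ℝ) * stepLaw Z j g := by
  refine Summable.of_nonneg_of_le (fun j => ?_) (fun j => ?_) (poisson_summable t)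
  · exact mul_nonneg (by positivity) (stepLaw_nonneg Z j g)
  · exact mul_le_of_le_one_right (by positivity) (stepLaw_le_one hk Z j g)

lemma walkLaw_sum {G : Type} [Group G] [Fintype G] {k : ℕ} (hk : 0 < k) (Z : Fin k → G)
    {t : ℝ} (ht : 0 ≤ t) : ∑ g : G, walkLaw Z t g = 1 := by
  unfold walkLaw
  rw [← Summable.tsum_finsetSum (fun g _ => walk_summable hk Z ht g)]
  simp only [← Finset.mul_sum, stepLaw_sum hk, mul_one]
  exact poisson_tsum t

/-- mass of a set containing the supports of the first `M` steps -/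
lemma walkLaw_mass {G : Type} [Group G] [Fintype G] {k : ℕ} (hk : 0 < k) (Z : Fin k → G)
    {t : ℝ} (ht : 0 ≤ t) (T : Finset G) (M : ℕ)
    (hT : ∀ j ≤ M, ∀ g, stepLaw Z j g ≠ 0 → g ∈ T) :
    1 - t / (M + 1) ≤ ∑ g ∈ T, walkLaw Z t g := by
  have h1 : ∑ g ∈ T, walkLaw Z t g =
      ∑' j : ℕ, Real.exp (-t) * t ^ j / (j.factorial : ℝ) * ∑ g ∈ T, stepLaw Z j g := by
    unfold walkLaw
    rw [← Summable.tsum_finsetSum (fun g _ => walk_summable hk Z ht g)]
    simp only [← Finset.mul_sum]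
  have hs : Summable fun j : ℕ => Real.exp (-t) * t ^ j / (j.factorial : ℝ) *
      ∑ g ∈ T, stepLaw Z j g := by
    have := summable_sum (s := T) (fun g _ => walk_summable hk Z ht g)
    refine this.congr fun j => ?_
    rw [Finset.mul_sum]
  -- each term is at least p_j * (1 - j / (M+1))
  have hp := poisson_summable t
  have h0 : HasSum (fun j : ℕ => t * (Real.exp (-t) * t ^ j / (j.factorial : ℝ))) t := by
    have := hp.hasSum
    rw [poisson_tsum t] at this
    simpa using this.mul_left t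
  have hmean : HasSum (fun j : ℕ => Real.exp (-t) * t ^ j / (j.factorial : ℝ) * (j : ℝ)) t := by
    rw [← hasSum_nat_add_iff' 1]
    simp only [Finset.range_one, Finset.sum_singleton, Nat.cast_zero, mul_zero, sub_zero]
    have hfun : (fun j : ℕ => Real.exp (-t) * t ^ (j + 1) / ((j + 1).factorial : ℝ) *
        ((j + 1 : ℕ) : ℝ)) = fun j : ℕ => t * (Real.exp (-t) * t ^ j / (j.factorial : ℝ)) := by
      funext j
      rw [Nat.factorial_succ]
      push_cast
      have h1 : ((j : ℝ) + 1) ≠ 0 := by positivity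
      have h2 : (j.factorial : ℝ) ≠ 0 := by positivity
      field_simp
      ring
    rw [hfun]
    exact h0
  have hlow : HasSum (fun j : ℕ => Real.exp (-t) * t ^ j / (j.factorial : ℝ) -
      Real.exp (-t) * t ^ j / (j.factorial : ℝ) * (j : ℝ) / (M + 1)) (1 - t / (M + 1)) := by
    have := hp.hasSum
    rw [poisson_tsum t] at this
    exact this.sub (hmean.div_const _)
  rw [h1]
  refine hasSum_le (fun j => ?_) hlow hs.hasSum
  have hpj : 0 ≤ Real.exp (-t) * t ^ j / (j.factorial : ℝ) := by positivity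
  by_cases hj : j ≤ M
  · have : ∑ g ∈ T, stepLaw Z j g = 1 := by
      rw [← stepLaw_sum hk Z j]
      refine Finset.sum_subset (Finset.subset_univ _) fun g _ hg => ?_
      by_contra hne
      exact hg (hT j hj g hne)
    rw [this, mul_one]
    have : 0 ≤ Real.exp (-t) * t ^ j / (j.factorial : ℝ) * (j : ℝ) / (M + 1) := by positivity
    linarith
  · push Not at hj
    have h3 : 0 ≤ Real.exp (-t) * t ^ j / (j.factorial : ℝ) * ∑ g ∈ T, stepLaw Z j g :=
      mul_nonneg hpj (Finset.sum_nonneg fun g _ => stepLaw_nonneg Z j g)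
    have h4 : (1 : ℝ) ≤ (j : ℝ) / (M + 1) := by
      rw [le_div_iff₀ (by positivity)]
      have : (M : ℝ) + 1 ≤ j := by exact_mod_cast hj
      linarith
    have h5 : Real.exp (-t) * t ^ j / (j.factorial : ℝ) ≤
        Real.exp (-t) * t ^ j / (j.factorial : ℝ) * (j : ℝ) / (M + 1) := by
      have := le_mul_of_one_le_right hpj h4
      rw [← mul_div_assoc] at this
      exact this
    linarith

lemma tvDist_ge {G : Type} [Group G] [Fintype G] {k : ℕ} (hk : 0 < k) (Z : Fin k → G)
    {t : ℝ} (ht : 0 ≤ t) (T : Finset G) :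
    ∑ g ∈ T, walkLaw Z t g - (T.card : ℝ) / (Fintype.card G : ℝ) ≤ tvDist Z t := by
  classical
  set c : ℝ := 1 / (Fintype.card G : ℝ) with hc
  have hG : (Fintype.card G : ℝ) ≠ 0 := by
    have : 0 < Fintype.card G := Fintype.card_pos
    positivity
  have hzero : ∑ g : G, (walkLaw Z t g - c) = 0 := by
    rw [Finset.sum_sub_distrib, walkLaw_sum hk Z ht]
    simp [hc]
  have hsplit : ∑ g : G, (walkLaw Z t g - c) = ∑ g ∈ T, (walkLaw Z t g - c) +
      ∑ g ∈ Tᶜ, (walkLaw Z t g - c) := (Finset.sum_add_sum_compl T _).symm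
  have hsplit' : ∑ g : G, |walkLaw Z t g - c| = ∑ g ∈ T, |walkLaw Z t g - c| +
      ∑ g ∈ Tᶜ, |walkLaw Z t g - c| := (Finset.sum_add_sum_compl T _).symm
  have h1 : ∑ g ∈ T, (walkLaw Z t g - c) ≤ ∑ g ∈ T, |walkLaw Z t g - c| :=
    Finset.sum_le_sum fun g _ => le_abs_self _
  have h2 : -∑ g ∈ Tᶜ, (walkLaw Z t g - c) ≤ ∑ g ∈ Tᶜ, |walkLaw Z t g - c| := by
    rw [← Finset.sum_neg_distrib]
    exact Finset.sum_le_sum fun g _ => neg_le_abs _
  have h3 : ∑ g ∈ T, (walkLaw Z t g - c) =
      ∑ g ∈ T, walkLaw Z t g - (T.card : ℝ) / (Fintype.card G : ℝ) := by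
    rw [Finset.sum_sub_distrib]
    simp [hc]
    ring
  unfold tvDist
  rw [← hc, hsplit']
  rw [← h3]
  linarith

/-! ### dihedral groups -/

lemma dihedral_reach {n k : ℕ} (Z : Fin k → DihedralGroup n) (a : Fin k → ZMod n)
    (ha : ∀ i, Z i = DihedralGroup.r (a i) ∨ Z i = DihedralGroup.sr (a i)) (j : ℕ) :
    ∀ g, stepLaw Z j g ≠ 0 → ∃ c : Fin k → ℤ, (∀ i, |c i| ≤ j) ∧
      (g = DihedralGroup.r (∑ i, (c i : ZMod n) * a i) ∨
        g = DihedralGroup.sr (∑ i, (c i : ZMod n) * a i)) := by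
  induction j with
  | zero =>
    intro g hg
    refine ⟨0, by simp, ?_⟩
    simp only [stepLaw] at hg
    have : g = 1 := by
      by_contra h
      simp [h] at hg
    left
    rw [this]
    simp
  | succ j ih =>
    intro g hg
    simp only [stepLaw] at hg
    have hsum : ∑ i : Fin k, stepLaw Z j (g * (Z i)⁻¹) ≠ 0 := by
      intro h
      simp [h] at hg
    obtain ⟨i, -, hi⟩ := Finset.exists_ne_zero_of_sum_ne_zero hsum
    obtain ⟨c, hc, hg'⟩ := ih _ hi
    have hgz : g = g * (Z i)⁻¹ * Z i := by group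
    set x : ZMod n := ∑ i, (c i : ZMod n) * a i with hx
    have hplus : ∃ c' : Fin k → ℤ, (∀ i, |c' i| ≤ ((j + 1 : ℕ) : ℤ)) ∧
        ∑ i, (c' i : ZMod n) * a i = x + a i := by
      refine ⟨fun l => c l + if l = i then 1 else 0, fun l => ?_, ?_⟩
      · have := hc l
        push_cast
        rw [abs_le] at this ⊢
        split_ifs <;> constructor <;> linarith
      · push_cast
        simp only [add_mul, Finset.sum_add_distrib]
        rw [hx]
        congr 1
        simp
    have hminus : ∃ c' : Fin k → ℤ, (∀ i, |c' i| ≤ ((j + 1 : ℕ) : ℤ)) ∧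
        ∑ i, (c' i : ZMod n) * a i = a i - x := by
      refine ⟨fun l => (if l = i then 1 else 0) - c l, fun l => ?_, ?_⟩
      · have := hc l
        push_cast
        rw [abs_le] at this ⊢
        split_ifs <;> constructor <;> linarith
      · push_cast
        simp only [sub_mul, Finset.sum_sub_distrib]
        rw [hx]
        congr 1
        simp
    rcases hg' with hg' | hg' <;> rcases ha i with hz | hz
    · obtain ⟨c', h1, h2⟩ := hplus
      refine ⟨c', h1, Or.inl ?_⟩
      rw [h2, hgz, hg', hz, DihedralGroup.r_mul_r]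
    · obtain ⟨c', h1, h2⟩ := hminus
      refine ⟨c', h1, Or.inr ?_⟩
      rw [h2, hgz, hg', hz, DihedralGroup.r_mul_sr]
    · obtain ⟨c', h1, h2⟩ := hplus
      refine ⟨c', h1, Or.inr ?_⟩
      rw [h2, hgz, hg', hz, DihedralGroup.sr_mul_r]
    · obtain ⟨c', h1, h2⟩ := hminus
      refine ⟨c', h1, Or.inl ?_⟩
      rw [h2, hgz, hg', hz, DihedralGroup.sr_mul_sr]

lemma dihedral_set {n k : ℕ} [NeZero n] (Z : Fin k → DihedralGroup n) (M : ℕ) :
    ∃ T : Finset (DihedralGroup n), T.card ≤ 2 * (2 * M + 1) ^ k ∧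
      ∀ j ≤ M, ∀ g, stepLaw Z j g ≠ 0 → g ∈ T := by
  classical
  have hex : ∀ i, ∃ a : ZMod n, Z i = DihedralGroup.r a ∨ Z i = DihedralGroup.sr a := by
    intro i
    cases h : Z i with
    | r a => exact ⟨a, Or.inl rfl⟩
    | sr a => exact ⟨a, Or.inr rfl⟩
  choose a ha using hex
  let box : Finset (Fin k → ℤ) := Fintype.piFinset fun _ => Finset.Icc (-(M : ℤ)) M
  let F : Bool × (Fin k → ℤ) → DihedralGroup n := fun p =>
    if p.1 then DihedralGroup.r (∑ i, (p.2 i : ZMod n) * a i)
    else DihedralGroup.sr (∑ i, (p.2 i : ZMod n) * a i)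
  refine ⟨(Finset.univ ×ˢ box).image F, ?_, ?_⟩
  · refine Finset.card_image_le.trans ?_
    rw [Finset.card_product]
    simp only [Finset.card_univ, Fintype.card_bool, box, Fintype.card_piFinset, Int.card_Icc,
      Finset.prod_const, Finset.card_univ, Fintype.card_fin]
    apply Nat.mul_le_mul_left
    apply Nat.pow_le_pow_left
    omega
  · intro j hj g hg
    obtain ⟨c, hc, hg'⟩ := dihedral_reach Z a ha j g hg
    have hbox : c ∈ box := by
      simp only [box, Fintype.mem_piFinset, Finset.mem_Icc]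
      intro i
      have := hc i
      rw [abs_le] at this
      have hj' : (j : ℤ) ≤ M := by exact_mod_cast hj
      constructor <;> linarith
    rw [Finset.mem_image]
    rcases hg' with h | h
    · exact ⟨(true, c), by simp [hbox], by simp [F, h]⟩
    · exact ⟨(false, c), by simp [hbox], by simp [F, h]⟩

lemma negMulLog_le_sqrt {p : ℝ} (hp : 0 ≤ p) : Real.negMulLog p ≤ 2 * Real.sqrt p := by
  rcases hp.eq_or_lt with h | h
  · simp [← h]
  · set x := Real.sqrt p with hx
    have hx0 : 0 < x := Real.sqrt_pos.mpr h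
    have hpx : p = x ^ 2 := (Real.sq_sqrt hp).symm
    rw [hpx, Real.negMulLog, Real.log_pow]
    have h1 := Real.log_le_sub_one_of_pos (inv_pos.mpr hx0)
    rw [Real.log_inv] at h1
    have h2 : x * (x⁻¹ - 1) ≤ 1 := by
      rw [mul_sub, mul_inv_cancel₀ hx0.ne']
      linarith
    have h3 : x * (-Real.log x) ≤ 1 := (mul_le_mul_of_nonneg_left h1 hx0.le).trans h2
    push_cast
    nlinarith

lemma pois_nonneg {l : ℝ} (hl : 0 ≤ l) (j : ℕ) :
    0 ≤ Real.exp (-l) * l ^ j / (j.factorial : ℝ) := by positivity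

lemma pois_le_one {l : ℝ} (hl : 0 ≤ l) (j : ℕ) :
    Real.exp (-l) * l ^ j / (j.factorial : ℝ) ≤ 1 := by
  have h1 : l ^ j / (j.factorial : ℝ) ≤ Real.exp l := Real.pow_div_factorial_le_exp l hl j
  have h2 : Real.exp (-l) * (l ^ j / (j.factorial : ℝ)) ≤ Real.exp (-l) * Real.exp l :=
    mul_le_mul_of_nonneg_left h1 (Real.exp_pos _).le
  rw [← Real.exp_add] at h2
  simp only [neg_add_cancel, Real.exp_zero] at h2
  rw [mul_div_assoc]
  exact h2

lemma term_bound {l : ℝ} (hl : 0 ≤ l) (j : ℕ) :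
    Real.negMulLog (Real.exp (-l) * l ^ j / (j.factorial : ℝ)) ≤
      2 * Real.exp (2 * l) * (1 / 2) ^ j := by
  refine (negMulLog_le_sqrt (pois_nonneg hl j)).trans ?_
  have h1 : (4 * l) ^ j / (j.factorial : ℝ) ≤ Real.exp (4 * l) :=
    Real.pow_div_factorial_le_exp (4 * l) (by positivity) j
  have h2 : Real.exp (-l) * l ^ j / (j.factorial : ℝ) ≤ (Real.exp (2 * l) * (1 / 2) ^ j) ^ 2 := by
    have h3 : (Real.exp (2 * l) * (1 / 2) ^ j) ^ 2 = Real.exp (4 * l) * (1 / 4) ^ j := by
      rw [mul_pow, ← pow_mul, mul_comm j 2, pow_mul, ← Real.exp_nat_mul]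
      norm_num
      ring_nf
    rw [h3]
    have h4 : Real.exp (-l) ≤ 1 := Real.exp_le_one_iff.mpr (by linarith)
    have h5 : Real.exp (-l) * l ^ j / (j.factorial : ℝ) ≤ l ^ j / (j.factorial : ℝ) := by
      rw [mul_div_assoc]
      exact mul_le_of_le_one_left (by positivity) h4
    refine h5.trans ?_
    have h6 : l ^ j / (j.factorial : ℝ) = ((4 * l) ^ j / (j.factorial : ℝ)) * (1 / 4) ^ j := by
      rw [mul_pow]
      have : (4 : ℝ) ^ j * (1 / 4) ^ j = 1 := by rw [← mul_pow]; norm_num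
      calc l ^ j / (j.factorial : ℝ) = l ^ j / (j.factorial : ℝ) * ((4 : ℝ) ^ j * (1 / 4) ^ j) := by
            rw [this, mul_one]
        _ = _ := by ring
    rw [h6]
    exact mul_le_mul_of_nonneg_right h1 (by positivity)
  have h7 := Real.sqrt_le_sqrt h2
  rw [Real.sqrt_sq (by positivity)] at h7
  linarith

lemma entropy_continuousOn : ContinuousOn poissonEntropy (Set.Icc 0 1) := by
  unfold poissonEntropy
  refine continuousOn_tsum (u := fun j : ℕ => 2 * Real.exp 2 * (1 / 2 : ℝ) ^ j) ?_ ?_ ?_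
  · intro j
    refine Continuous.continuousOn ?_
    refine Real.continuous_negMulLog.comp ?_
    fun_prop
  · exact (summable_geometric_of_lt_one (by norm_num) (by norm_num)).mul_left _
  · intro j l hl
    rw [Real.norm_of_nonneg
      (Real.negMulLog_nonneg (pois_nonneg hl.1 j) (pois_le_one hl.1 j))]
    refine (term_bound hl.1 j).trans ?_
    have : Real.exp (2 * l) ≤ Real.exp 2 := Real.exp_le_exp.mpr (by linarith [hl.2])
    have h2 : (0 : ℝ) ≤ (1 / 2) ^ j := by positivity
    nlinarith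

lemma entropy_summable {l : ℝ} (hl : 0 ≤ l) :
    Summable fun j : ℕ => Real.negMulLog (Real.exp (-l) * l ^ j / (j.factorial : ℝ)) := by
  refine Summable.of_nonneg_of_le
    (fun j => Real.negMulLog_nonneg (pois_nonneg hl j) (pois_le_one hl j))
    (fun j => term_bound hl j) ?_
  exact (summable_geometric_of_lt_one (by norm_num) (by norm_num)).mul_left _

lemma entropy_zero : poissonEntropy 0 = 0 := by
  unfold poissonEntropy
  have : ∀ j : ℕ, Real.negMulLog (Real.exp (-0) * (0 : ℝ) ^ j / (j.factorial : ℝ)) = 0 := by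
    intro j
    rcases j with _ | j <;> simp
  simp only [this, tsum_zero]

lemma entropy_one : (1 / 2 : ℝ) ≤ poissonEntropy 1 := by
  unfold poissonEntropy
  have h0 := (entropy_summable (l := 1) zero_le_one).sum_le_tsum (Finset.range 2)
    (fun j _ => Real.negMulLog_nonneg (pois_nonneg zero_le_one j) (pois_le_one zero_le_one j))
  refine le_trans ?_ h0
  simp only [Finset.sum_range_succ, Finset.range_zero, Finset.sum_empty]
  simp only [Real.negMulLog]
  norm_num
  have h1 : Real.exp (-1) = (Real.exp 1)⁻¹ := Real.exp_neg 1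
  have h2 := Real.exp_one_lt_d9
  rw [h1]
  have h3 : (1 / 4 : ℝ) ≤ (Real.exp 1)⁻¹ := by
    rw [one_div]
    exact inv_anti₀ (Real.exp_pos 1) (by linarith)
  linarith

lemma exists_entropic {k : ℕ} (hk : 3 ≤ k) {N : ℕ} (hN1 : 1 ≤ N) (hN : N ≤ 4) :
    ∃ t : ℝ, 0 ≤ t ∧ t ≤ k ∧ poissonEntropy (t / k) = Real.log N / k := by
  have hkpos : (0 : ℝ) < k := by positivity
  have hk3 : (3 : ℝ) ≤ k := by exact_mod_cast hk
  have hmem : Real.log N / k ∈ Set.Icc (poissonEntropy 0) (poissonEntropy 1) := by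
    rw [entropy_zero]
    constructor
    · exact div_nonneg (Real.log_nonneg (by exact_mod_cast hN1)) hkpos.le
    · refine le_trans ?_ entropy_one
      rw [div_le_iff₀ hkpos]
      have h1 : Real.log N ≤ Real.log 4 :=
        Real.log_le_log (by exact_mod_cast hN1) (by exact_mod_cast hN)
      have h2 : Real.log 4 = 2 * Real.log 2 := by
        rw [show (4 : ℝ) = 2 ^ 2 by norm_num, Real.log_pow]; norm_num
      have h3 := Real.log_two_lt_d9
      nlinarith
  obtain ⟨l, hl, hle⟩ := intermediate_value_Icc (zero_le_one' ℝ) entropy_continuousOn hmem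
  refine ⟨k * l, by have := hl.1; positivity, ?_, ?_⟩
  · have := hl.2
    nlinarith
  · rw [mul_div_cancel_left₀ _ hkpos.ne', hle]

/-- the abelianization of a dihedral group has at most four elements -/
lemma card_ab_le {n : ℕ} [NeZero n] : Nat.card (Abelianization (DihedralGroup n)) ≤ 4 := by
  classical
  let x : Abelianization (DihedralGroup n) := Abelianization.of (DihedralGroup.r 1)
  let y : Abelianization (DihedralGroup n) := Abelianization.of (DihedralGroup.sr 0)
  have hx2 : x ^ 2 = 1 := by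
    have h1 : y * x * y = x := by
      rw [mul_comm y x, mul_assoc]
      have : y * y = 1 := by
        show Abelianization.of _ * Abelianization.of _ = 1
        rw [← map_mul, DihedralGroup.sr_mul_sr]
        simp
      rw [this, mul_one]
    have h2 : y * x * y = x⁻¹ := by
      show Abelianization.of _ * Abelianization.of _ * Abelianization.of _ =
        (Abelianization.of (DihedralGroup.r (1 : ZMod n)))⁻¹
      rw [← map_mul, ← map_mul, ← map_inv, DihedralGroup.sr_mul_r, DihedralGroup.sr_mul_sr]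
      congr 1
      simp
    rw [h2] at h1
    rw [sq]
    nth_rewrite 1 [← h1]
    simp
  have hr : ∀ i : ZMod n, ∃ b : Fin 2, Abelianization.of (DihedralGroup.r i) = x ^ (b : ℕ) := by
    intro i
    refine ⟨⟨i.val % 2, Nat.mod_lt _ (by norm_num)⟩, ?_⟩
    have h1 : DihedralGroup.r i = (DihedralGroup.r (1 : ZMod n)) ^ i.val := by
      rw [DihedralGroup.r_one_pow]
      simp
    rw [h1, map_pow]
    show x ^ i.val = x ^ (i.val % 2)
    conv_lhs => rw [← Nat.div_add_mod i.val 2]
    rw [pow_add, pow_mul, hx2, one_pow, one_mul]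
  let F : Fin 2 × Fin 2 → Abelianization (DihedralGroup n) := fun p => y ^ (p.1 : ℕ) * x ^ (p.2 : ℕ)
  have hF : Function.Surjective F := by
    intro z
    obtain ⟨g, rfl⟩ := QuotientGroup.mk_surjective z
    cases g with
    | r i =>
      obtain ⟨b, hb⟩ := hr i
      refine ⟨(0, b), ?_⟩
      simp only [F]
      rw [← hb]
      simp
      rfl
    | sr i =>
      obtain ⟨b, hb⟩ := hr i
      refine ⟨(1, b), ?_⟩
      simp only [F]
      rw [← hb]
      have : (DihedralGroup.sr i : DihedralGroup n) = DihedralGroup.sr 0 * DihedralGroup.r i := by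
        rw [DihedralGroup.sr_mul_r, zero_add]
      have h2 : (QuotientGroup.mk (DihedralGroup.sr i) : Abelianization (DihedralGroup n)) =
          Abelianization.of (DihedralGroup.sr i) := rfl
      rw [h2, this, map_mul]
      simp [y]
  have := Nat.card_le_card_of_surjective F hF
  simpa using this

/-! ### the counterexample -/

lemma pow_bound {κ : ℕ} (hκ : 7 ≤ κ) : κ ^ 2 + 5 * κ + 2 ≤ 2 ^ κ := by
  induction κ, hκ using Nat.le_induction with
  | base => norm_num
  | succ n hn ih =>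
    have h : 2 ^ (n + 1) = 2 * 2 ^ n := by ring
    rw [h]
    nlinarith

lemma two_mul_le_two_pow {κ : ℕ} (hκ : 3 ≤ κ) : 2 * κ ≤ 2 ^ κ := by
  induction κ, hκ using Nat.le_induction with
  | base => norm_num
  | succ n hn ih =>
    rw [pow_succ]
    omega

instance (e : ℕ) : NeZero (2 ^ e) := ⟨by positivity⟩

lemma card_dih (e : ℕ) : Fintype.card (DihedralGroup (2 ^ e)) = 2 ^ (e + 1) := by
  rw [DihedralGroup.card, pow_succ, mul_comm]

lemma tv_large {κ : ℕ} (hκ : 7 ≤ κ) (Z : Fin κ → DihedralGroup (2 ^ (2 ^ κ))) {t : ℝ}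
    (ht0 : 0 ≤ t) (ht : t ≤ 2 * 2 ^ κ) : (1 / 2 : ℝ) ≤ tvDist Z t := by
  obtain ⟨T, hTc, hT⟩ := dihedral_set Z (8 * 2 ^ κ)
  have hk : 0 < κ := by omega
  have h1 := walkLaw_mass hk Z ht0 T (8 * 2 ^ κ) hT
  have h2 := tvDist_ge hk Z ht0 T
  have h3 : t / (((8 * 2 ^ κ : ℕ) : ℝ) + 1) ≤ 1 / 4 := by
    rw [div_le_iff₀ (by positivity)]
    push_cast
    linarith
  have h4 : (T.card : ℝ) / (Fintype.card (DihedralGroup (2 ^ (2 ^ κ))) : ℝ) ≤ 1 / 4 := by
    rw [div_le_iff₀ (by rw [card_dih]; positivity), card_dih]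
    have h5 : T.card * 4 ≤ 2 ^ (2 ^ κ + 1) := by
      have h6 : 2 * (2 * (8 * 2 ^ κ) + 1) ^ κ ≤ 2 ^ (κ ^ 2 + 5 * κ + 1) := by
        have h7 : 2 * (8 * 2 ^ κ) + 1 ≤ 2 ^ (κ + 5) := by
          rw [pow_add]
          have : 1 ≤ 2 ^ κ := Nat.one_le_two_pow
          omega
        calc 2 * (2 * (8 * 2 ^ κ) + 1) ^ κ ≤ 2 * (2 ^ (κ + 5)) ^ κ :=
              Nat.mul_le_mul_left _ (Nat.pow_le_pow_left h7 κ)
          _ = 2 ^ (κ ^ 2 + 5 * κ + 1) := by
              rw [← pow_mul]
              ring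
      calc T.card * 4 ≤ 2 ^ (κ ^ 2 + 5 * κ + 1) * 4 := Nat.mul_le_mul_right _ (hTc.trans h6)
        _ = 2 ^ (κ ^ 2 + 5 * κ + 2 + 1) := by ring
        _ ≤ 2 ^ (2 ^ κ + 1) := Nat.pow_le_pow_right (by norm_num) (by have := pow_bound hκ; omega)
    have h8 : ((T.card * 4 : ℕ) : ℝ) ≤ ((2 ^ (2 ^ κ + 1) : ℕ) : ℝ) := by exact_mod_cast h5
    push_cast at h8 ⊢
    linarith
  linarith

/-- **Disproof of the cutoff statement for random Cayley graphs of nilpotent groups.** -/
theorem result :
    ¬ ∀ (G : ℕ → Type) (_ : ∀ m, Group (G m)) (_ : ∀ m, Fintype (G m)) (k : ℕ → ℕ) (t₀ : ℕ → ℝ),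
      (∀ m, Group.IsNilpotent (G m)) →
      Tendsto (fun m => (Fintype.card (G m) : ℝ)) atTop atTop →
      Tendsto (fun m => Real.log (k m)) atTop atTop →
      Tendsto (fun m => Real.log (k m) / Real.log (Fintype.card (G m))) atTop (𝓝 0) →
      Tendsto (fun m => Real.log (Nat.card (Abelianization (G m))) / (k m : ℝ)) atTop (𝓝 0) →
      (∀ m, IsEntropicTime (k m) (Nat.card (Abelianization (G m))) (t₀ m)) →
      CutoffWhp G k (fun m => max (t₀ m) (Real.logb (k m) (Fintype.card (G m)))) := by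
  intro H
  have hA1 : ∀ e : ℕ, 1 ≤ Nat.card (Abelianization (DihedralGroup (2 ^ e))) := fun e =>
    Nat.card_pos
  have hex : ∀ m : ℕ, ∃ t : ℝ, 0 ≤ t ∧ t ≤ ((m + 3 : ℕ) : ℝ) ∧ poissonEntropy (t / (m + 3 : ℕ)) =
      Real.log (Nat.card (Abelianization (DihedralGroup (2 ^ (2 ^ (m + 3)))))) / (m + 3 : ℕ) :=
    fun m => exists_entropic (by omega) (hA1 _) card_ab_le
  choose t₀ ht0 htk hte using hex
  have hlog2 := Real.log_two_gt_d9
  have hlog2' := Real.log_two_lt_d9
  have hL : ∀ m : ℕ, Real.log (Fintype.card (DihedralGroup (2 ^ (2 ^ (m + 3))))) =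
      (2 ^ (m + 3) + 1) * Real.log 2 := by
    intro m
    rw [card_dih]
    push_cast
    rw [Real.log_pow]
    push_cast
    ring
  have hcut := H (fun m => DihedralGroup (2 ^ (2 ^ (m + 3)))) (fun m => inferInstance)
    (fun m => inferInstance) (fun m => m + 3) t₀ ?_ ?_ ?_ ?_ ?_ (fun m => ⟨ht0 m, hte m⟩)
  · -- contradiction with cutoff
    have h1 := (hcut (1 / 2) (by norm_num) (by norm_num) (1 / 4) (by norm_num)).1
    have h2 : ∀ᶠ m in atTop, (probZ fun Z : Fin (m + 3) → DihedralGroup (2 ^ (2 ^ (m + 3))) =>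
        (1 / 4 : ℝ) < tvDist Z ((1 + 1 / 2) * max (t₀ m) (Real.logb ((m + 3 : ℕ) : ℝ)
          (Fintype.card (DihedralGroup (2 ^ (2 ^ (m + 3)))))))) < 1 :=
      h1.eventually (gt_mem_nhds one_pos)
    obtain ⟨m, hm, hm4⟩ := (h2.and (eventually_ge_atTop 4)).exists
    set κ := m + 3 with hκ
    have hκ7 : 7 ≤ κ := by omega
    set tt : ℝ := (1 + 1 / 2) * max (t₀ m) (Real.logb (κ : ℝ)
          (Fintype.card (DihedralGroup (2 ^ (2 ^ κ))))) with htt
    have hκ2 : (2 : ℝ) * κ ≤ 2 ^ κ := by exact_mod_cast two_mul_le_two_pow (by omega : 3 ≤ κ)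
    have hκr : (7 : ℝ) ≤ κ := by exact_mod_cast hκ7
    have hmax0 : 0 ≤ max (t₀ m) (Real.logb (κ : ℝ)
          (Fintype.card (DihedralGroup (2 ^ (2 ^ κ))))) := le_max_of_le_left (ht0 m)
    have hmax : max (t₀ m) (Real.logb (κ : ℝ)
          (Fintype.card (DihedralGroup (2 ^ (2 ^ κ))))) ≤ (2 ^ κ + 1) * Real.log 2 := by
      refine max_le ?_ ?_
      · refine (htk m).trans ?_
        nlinarith
      · rw [Real.logb, hL m]
        have hpos : 0 ≤ ((2 : ℝ) ^ κ + 1) * Real.log 2 := by positivity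
        have hlogκ : 1 ≤ Real.log κ := by
          rw [Real.le_log_iff_exp_le (by positivity)]
          have := Real.exp_one_lt_d9
          linarith
        exact div_le_self hpos hlogκ
    have htt0 : 0 ≤ tt := by positivity
    have htt2 : tt ≤ 2 * 2 ^ κ := by
      rw [htt]
      nlinarith
    have hall : ∀ Z : Fin κ → DihedralGroup (2 ^ (2 ^ κ)), (1 / 4 : ℝ) < tvDist Z tt := by
      intro Z
      have := tv_large hκ7 Z htt0 htt2
      linarith
    have hone : (probZ fun Z : Fin κ → DihedralGroup (2 ^ (2 ^ κ)) =>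
        (1 / 4 : ℝ) < tvDist Z tt) = 1 := by
      unfold probZ
      have hcard : Nat.card {Z : Fin κ → DihedralGroup (2 ^ (2 ^ κ)) //
          (1 / 4 : ℝ) < tvDist Z tt} = Nat.card (Fin κ → DihedralGroup (2 ^ (2 ^ κ))) :=
        Nat.card_congr (Equiv.subtypeUnivEquiv hall)
      rw [hcard]
      have : (Nat.card (Fin κ → DihedralGroup (2 ^ (2 ^ κ))) : ℝ) ≠ 0 := by
        have : 0 < Nat.card (Fin κ → DihedralGroup (2 ^ (2 ^ κ))) := Nat.card_pos
        positivity
      exact div_self this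
    rw [hone] at hm
    exact lt_irrefl _ hm
  · intro m
    have : Fact (Nat.Prime 2) := ⟨Nat.prime_two⟩
    have : IsPGroup 2 (DihedralGroup (2 ^ (2 ^ (m + 3)))) := by
      apply IsPGroup.of_card (n := 2 ^ (m + 3) + 1)
      rw [Nat.card_eq_fintype_card, card_dih]
    exact this.isNilpotent
  · refine tendsto_atTop_mono (fun m => ?_) tendsto_natCast_atTop_atTop
    rw [card_dih]
    have h1 : m + 3 < 2 ^ (m + 3) := Nat.lt_two_pow_self
    have h2 : 2 ^ (m + 3) + 1 < 2 ^ (2 ^ (m + 3) + 1) := Nat.lt_two_pow_self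
    exact_mod_cast (by omega : m ≤ 2 ^ (2 ^ (m + 3) + 1))
  · refine Real.tendsto_log_atTop.comp (tendsto_natCast_atTop_atTop.comp (tendsto_add_atTop_nat 3))
  · -- log k / log |G| → 0
    have hb : ∀ m : ℕ, ‖Real.log ((m + 3 : ℕ) : ℝ) /
        Real.log (Fintype.card (DihedralGroup (2 ^ (2 ^ (m + 3)))))‖ ≤
        4 * (((m + 3 : ℕ) : ℝ) * (1 / 2) ^ (m + 3)) := by
      intro m
      rw [hL m]
      have h0 : 0 ≤ Real.log ((m + 3 : ℕ) : ℝ) := Real.log_natCast_nonneg _
      have h1 : Real.log ((m + 3 : ℕ) : ℝ) ≤ ((m + 3 : ℕ) : ℝ) :=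
        Real.log_le_self (Nat.cast_nonneg _)
      have h2 : (2 : ℝ) ^ (m + 3) / 2 ≤ (2 ^ (m + 3) + 1) * Real.log 2 := by
        have : (0 : ℝ) < 2 ^ (m + 3) := by positivity
        nlinarith
      rw [Real.norm_of_nonneg (by positivity)]
      rw [div_le_iff₀ (by positivity)]
      have h3 : (1 / 2 : ℝ) ^ (m + 3) * 2 ^ (m + 3) = 1 := by
        rw [← mul_pow]; norm_num
      calc Real.log ((m + 3 : ℕ) : ℝ) ≤ ((m + 3 : ℕ) : ℝ) := h1
        _ ≤ 4 * ((m + 3 : ℕ) : ℝ) * (1 / 2) := by
            have : (0 : ℝ) ≤ ((m + 3 : ℕ) : ℝ) := Nat.cast_nonneg _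
            linarith
        _ = 4 * (((m + 3 : ℕ) : ℝ) * (1 / 2) ^ (m + 3)) * (2 ^ (m + 3) / 2) := by
            calc 4 * ((m + 3 : ℕ) : ℝ) * (1 / 2) = 4 * ((m + 3 : ℕ) : ℝ) *
                  ((1 / 2 : ℝ) ^ (m + 3) * 2 ^ (m + 3)) * (1 / 2) := by rw [h3, mul_one]
              _ = _ := by ring
        _ ≤ _ := mul_le_mul_of_nonneg_left h2 (by positivity)
    have hlim : Tendsto (fun m : ℕ => 4 * (((m + 3 : ℕ) : ℝ) * (1 / 2 : ℝ) ^ (m + 3)))
        atTop (𝓝 0) := by
      have h := tendsto_self_mul_const_pow_of_lt_one (r := (1 / 2 : ℝ)) (by norm_num) (by norm_num)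
      have h2 := (h.comp (tendsto_add_atTop_nat 3)).const_mul 4
      simpa using h2
    exact squeeze_zero_norm hb hlim
  · -- log |A| / k → 0
    have hb : ∀ m : ℕ, ‖Real.log (Nat.card (Abelianization
        (DihedralGroup (2 ^ (2 ^ (m + 3))))) : ℝ) / ((m + 3 : ℕ) : ℝ)‖ ≤
        Real.log 4 * (1 / ((m + 3 : ℕ) : ℝ)) := by
      intro m
      have h0 : 0 ≤ Real.log (Nat.card (Abelianization
        (DihedralGroup (2 ^ (2 ^ (m + 3))))) : ℝ) := Real.log_natCast_nonneg _
      have h1 : Real.log (Nat.card (Abelianization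
        (DihedralGroup (2 ^ (2 ^ (m + 3))))) : ℝ) ≤ Real.log 4 := by
        refine Real.log_le_log ?_ ?_
        · exact_mod_cast hA1 _
        · exact_mod_cast (card_ab_le (n := 2 ^ (2 ^ (m + 3))))
      rw [Real.norm_of_nonneg (by positivity), mul_one_div]
      exact div_le_div_of_nonneg_right h1 (by positivity)
    have hlim : Tendsto (fun m : ℕ => Real.log 4 * (1 / ((m + 3 : ℕ) : ℝ))) atTop (𝓝 0) := by
      have h := (tendsto_one_div_atTop_nhds_zero_nat (𝕜 := ℝ)).comp (tendsto_add_atTop_nat 3)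
      have h2 := h.const_mul (Real.log 4)
      simpa using h2
    exact squeeze_zero_norm hb hlim

end Pool.Agent.Results.MP_bb6540_pr.DihedralCounterexample
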